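import Pool.Agent.L7h54.GR.Stm

/-!
Project GR (MP_646035_al), part COV: the circulant graph on `2N` vertices is a double cover of the
one on `N` vertices.
-/

namespace Pool.Agent.L7h50.GR

open Finset Filter Topology Pool.Agent.L7h54.GR

/-- The two sheets. -/
noncomputable def sheet (N : ℕ) : ZMod N ⊕ ZMod N → ZMod (2 * N) :=
  Sum.elim (fun y => (y.val : ZMod (2 * N))) (fun y => (y.val : ZMod (2 * N)) + (N : ZMod (2 * N)))

theorem sheet_surj (N : ℕ) [NeZero N] [NeZero (2 * N)] : Function.Surjective (sheet N) := by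
  intro z
  have hz := ZMod.val_lt z
  by_cases h : z.val < N
  · refine ⟨Sum.inl ((z.val : ℕ) : ZMod N), ?_⟩
    simp only [sheet, Sum.elim_inl]
    rw [ZMod.val_natCast, Nat.mod_eq_of_lt h, ZMod.natCast_val, ZMod.cast_id]
  · refine ⟨Sum.inr ((z.val - N : ℕ) : ZMod N), ?_⟩
    simp only [sheet, Sum.elim_inr]
    rw [ZMod.val_natCast, Nat.mod_eq_of_lt (by omega), ← Nat.cast_add, Nat.sub_add_cancel (by omega),
      ZMod.natCast_val, ZMod.cast_id]

theorem sheet_bij (N : ℕ) [NeZero N] [NeZero (2 * N)] : Function.Bijective (sheet N) := by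
  rw [Fintype.bijective_iff_surjective_and_card]
  refine ⟨sheet_surj N, ?_⟩
  rw [Fintype.card_sum, ZMod.card, ZMod.card]
  ring

/-- A step of length `j`: there is the number `Q` of changes of the sheet. -/
theorem step (N : ℕ) [NeZero N] [NeZero (2 * N)] (y : ZMod N) (j : ℕ) :
    (y.val : ZMod (2 * N)) + (j : ZMod (2 * N)) =
      if ((y.val + j) / N) % 2 = 1 then sheet N (Sum.inr (y + (j : ZMod N)))
      else sheet N (Sum.inl (y + (j : ZMod N))) := by
  have hv : (y + (j : ZMod N)).val = (y.val + j) % N := by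
    rw [ZMod.val_add, ZMod.val_natCast, Nat.add_mod_mod]
  have hdm := Nat.div_add_mod (y.val + j) N
  set Q := (y.val + j) / N with hQ
  set w := (y.val + j) % N with hw
  have h2 : ((2 * N : ℕ) : ZMod (2 * N)) = 0 := ZMod.natCast_self _
  have hdm2 := Nat.div_add_mod Q 2
  simp only [sheet, Sum.elim_inl, Sum.elim_inr, hv]
  rw [← Nat.cast_add, ← hdm]
  split_ifs with h
  · have e : N * Q + w = (2 * N) * (Q / 2) + (w + N) := by
      rw [h] at hdm2
      nlinarith [hdm2]
    rw [e, Nat.cast_add, Nat.cast_mul, h2, zero_mul, zero_add, Nat.cast_add]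
  · have h0 : Q % 2 = 0 := by omega
    have e : N * Q + w = (2 * N) * (Q / 2) + w := by
      rw [h0] at hdm2
      nlinarith [hdm2]
    rw [e, Nat.cast_add, Nat.cast_mul, h2, zero_mul, zero_add]

theorem step' (N : ℕ) [NeZero N] [NeZero (2 * N)] (y : ZMod N) (j : ℕ) :
    (y.val : ZMod (2 * N)) + (N : ZMod (2 * N)) + (j : ZMod (2 * N)) =
      if ((y.val + j) / N) % 2 = 1 then sheet N (Sum.inl (y + (j : ZMod N)))
      else sheet N (Sum.inr (y + (j : ZMod N))) := by
  have h2 : (N : ZMod (2 * N)) + (N : ZMod (2 * N)) = 0 := by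
    have := ZMod.natCast_self (2 * N)
    push_cast at this
    linear_combination this
  have e : (y.val : ZMod (2 * N)) + (N : ZMod (2 * N)) + (j : ZMod (2 * N)) =
      ((y.val : ZMod (2 * N)) + (j : ZMod (2 * N))) + (N : ZMod (2 * N)) := by ring
  rw [e, step]
  split_ifs with h
  · simp only [sheet, Sum.elim_inl, Sum.elim_inr]
    rw [add_assoc, h2, add_zero]
  · simp only [sheet, Sum.elim_inl, Sum.elim_inr]

/-- [COV] -/
theorem s_COV : S_COV := by
  intro K N _ _ ρ
  unfold D Zt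
  let L : ZMod N ⊕ ZMod N ≃ ZMod (2 * N) := Equiv.ofBijective (sheet N) (sheet_bij N)
  let E : (ZMod (2 * N) → Bool) ≃ (ZMod N → Bool) × (ZMod N → Bool) :=
    (Equiv.arrowCongr L.symm (Equiv.refl Bool)).trans (Equiv.sumArrowEquivProdArrow _ _ _)
  have hE1 : ∀ σ : ZMod (2 * N) → Bool, (E σ).1 = fun y => σ (sheet N (Sum.inl y)) := fun σ => rfl
  have hE2 : ∀ σ : ZMod (2 * N) → Bool, (E σ).2 = fun y => σ (sheet N (Sum.inr y)) := fun σ => rfl
  rw [← Fintype.sum_prod_type' (f := fun (s s' : ZMod N → Bool) => ∏ e : ZMod N × Bool,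
    (if decide (((e.1.val + (if e.2 then K else 1)) / N) % 2 = 1) = true then
      r ρ (s e.1) (s' (e.1 + (if e.2 then (K : ZMod N) else 1))) *
        r ρ (s' e.1) (s (e.1 + (if e.2 then (K : ZMod N) else 1)))
      else r ρ (s e.1) (s (e.1 + (if e.2 then (K : ZMod N) else 1))) *
        r ρ (s' e.1) (s' (e.1 + (if e.2 then (K : ZMod N) else 1)))))]
  refine Fintype.sum_equiv E _ _ ?_
  intro σ
  rw [hE1, hE2]
  rw [← Fintype.prod_equiv L (fun z => r ρ (σ (sheet N z)) (σ (sheet N z + 1)) *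
      r ρ (σ (sheet N z)) (σ (sheet N z + K))) _ (fun z => rfl)]
  rw [Fintype.prod_sum_type, ← Finset.prod_mul_distrib, Fintype.prod_prod_type]
  refine Finset.prod_congr rfl ?_
  intro y _
  rw [Fintype.prod_bool]
  have s1 := step N y 1
  have sK := step N y K
  have s1' := step' N y 1
  have sK' := step' N y K
  have a0 : sheet N (Sum.inl y) = (y.val : ZMod (2 * N)) := rfl
  have a1 : sheet N (Sum.inr y) = (y.val : ZMod (2 * N)) + (N : ZMod (2 * N)) := rfl
  rw [← a0] at s1 sK
  rw [← a1] at s1' sK'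
  push_cast at s1 s1'
  rw [s1, sK, s1', sK']
  simp only [decide_eq_true_eq, if_true, Bool.false_eq_true, if_false]
  split_ifs <;> ring

end Pool.Agent.L7h50.GR
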