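import Pool.Agent.L7h54.GR.Stm

/-!
Project GR (MP_646035_al), part CYC: cyclic and free boundary conditions.
-/

namespace Pool.Agent.L7h50.GR

open Finset Filter Topology Pool.Agent.L7h54.GR

theorem one_le_W {x : ℝ} (h0 : 0 ≤ x) (a b : Bool) : 1 ≤ W x a b := by
  unfold W
  split_ifs <;> linarith

theorem W_le_two {x : ℝ} (h1 : x ≤ 1) (a b : Bool) : W x a b ≤ 2 := by
  unfold W
  split_ifs <;> linarith

/-- The configuration of a set. -/
noncomputable def cf (N : ℕ) (s : Finset ℤ) : ZMod N → Bool := fun y => decide ((y.val : ℤ) ∈ s)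

/-- the part of the product over the bonds of length `j` with one end at `n + j`. -/
theorem prod_W (N : ℕ) [NeZero N] (x : ℝ) (s : Finset ℤ) (j : ℕ) (hj : j ≤ N) :
    ∏ y : ZMod N, W x (cf N s y) (cf N s (y + (j : ZMod N))) =
      (∏ y ∈ Ico (0 + j : ℤ) N, bd x s j y) *
        ∏ n ∈ Ico (N - j) N, W x (cf N s (n : ZMod N)) (cf N s ((n : ZMod N) + (j : ZMod N))) := by
  have e1 : ∏ y : ZMod N, W x (cf N s y) (cf N s (y + (j : ZMod N))) =
      ∏ n ∈ range N, W x (cf N s (n : ZMod N)) (cf N s ((n : ZMod N) + (j : ZMod N))) := by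
    refine Finset.prod_bij' (fun y _ => y.val) (fun n _ => (n : ZMod N)) ?_ ?_ ?_ ?_ ?_
    · intro y _
      exact Finset.mem_range.mpr (ZMod.val_lt y)
    · intro n _
      exact Finset.mem_univ _
    · intro y _
      exact ZMod.natCast_zmod_val y
    · intro n hn
      exact ZMod.val_natCast_of_lt (Finset.mem_range.mp hn)
    · intro y _
      simp only [ZMod.natCast_zmod_val]
  rw [e1, Finset.range_eq_Ico, ← Finset.prod_Ico_consecutive _ (Nat.zero_le (N - j)) (Nat.sub_le N j)]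
  congr 1
  refine Finset.prod_bij' (fun n _ => (n : ℤ) + j) (fun y _ => (y - j).toNat) ?_ ?_ ?_ ?_ ?_
  · intro n hn
    rw [Finset.mem_Ico] at hn ⊢
    omega
  · intro y hy
    rw [Finset.mem_Ico] at hy ⊢
    omega
  · intro n hn
    simp
  · intro y hy
    rw [Finset.mem_Ico] at hy
    omega
  · intro n hn
    rw [Finset.mem_Ico] at hn
    have hn' : n < N := by omega
    have v1 : ((n : ZMod N)).val = n := ZMod.val_natCast_of_lt hn'
    have v2 : ((n : ZMod N) + (j : ZMod N)).val = n + j := by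
      rw [← Nat.cast_add]
      exact ZMod.val_natCast_of_lt (by omega)
    simp only [W, cf, bd, v1, v2, decide_eq_true_eq, decide_eq_false_iff_not]
    simp

theorem W_bounds (N : ℕ) [NeZero N] (x : ℝ) (s : Finset ℤ) (j : ℕ) (hj : j ≤ N) (h0 : 0 ≤ x)
    (h1 : x ≤ 1) :
    0 < (∏ y ∈ Ico (0 + j : ℤ) N, bd x s j y) ∧
    (∏ y ∈ Ico (0 + j : ℤ) N, bd x s j y) ≤
        ∏ y : ZMod N, W x (cf N s y) (cf N s (y + (j : ZMod N))) ∧
    ∏ y : ZMod N, W x (cf N s y) (cf N s (y + (j : ZMod N))) ≤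
      2 ^ j * ∏ y ∈ Ico (0 + j : ℤ) N, bd x s j y := by
  have hb : 0 < ∏ y ∈ Ico (0 + j : ℤ) N, bd x s j y := by
    refine Finset.prod_pos ?_
    intro y _
    unfold bd
    split_ifs <;> linarith
  have hl : 1 ≤ ∏ n ∈ Ico (N - j) N,
      W x (cf N s (n : ZMod N)) (cf N s ((n : ZMod N) + (j : ZMod N))) := by
    have : (∏ _n ∈ Ico (N - j) N, (1 : ℝ)) ≤ ∏ n ∈ Ico (N - j) N,
      W x (cf N s (n : ZMod N)) (cf N s ((n : ZMod N) + (j : ZMod N))) :=
      Finset.prod_le_prod (fun _ _ => zero_le_one) (fun n _ => one_le_W h0 _ _)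
    simpa using this
  have hu : ∏ n ∈ Ico (N - j) N,
      W x (cf N s (n : ZMod N)) (cf N s ((n : ZMod N) + (j : ZMod N))) ≤ 2 ^ j := by
    have : ∏ n ∈ Ico (N - j) N,
      W x (cf N s (n : ZMod N)) (cf N s ((n : ZMod N) + (j : ZMod N))) ≤
      ∏ _n ∈ Ico (N - j) N, (2 : ℝ) :=
      Finset.prod_le_prod (fun n _ => le_trans zero_le_one (one_le_W h0 _ _))
        (fun n _ => W_le_two h1 _ _)
    rw [Finset.prod_const, Nat.card_Ico, Nat.sub_sub_self hj] at this
    exact this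
  rw [prod_W N x s j hj]
  refine ⟨hb, ?_, ?_⟩
  · exact le_mul_of_one_le_right hb.le hl
  · rw [mul_comm (2 ^ j : ℝ)]
    exact mul_le_mul_of_nonneg_left hu hb.le

theorem wt_bounds (k N : ℕ) [NeZero N] (x : ℝ) (s : Finset ℤ) (hk : 1 ≤ k) (hkN : k < N)
    (h0 : 0 ≤ x) (h1 : x ≤ 1) :
    wt k 0 N x s ≤ ∏ y : ZMod N, W x (cf N s y) (cf N s (y + 1)) *
        W x (cf N s y) (cf N s (y + (k : ZMod N))) ∧
    ∏ y : ZMod N, W x (cf N s y) (cf N s (y + 1)) *
        W x (cf N s y) (cf N s (y + (k : ZMod N))) ≤ 2 ^ (k + 1) * wt k 0 N x s := by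
  obtain ⟨p1, l1, u1⟩ := W_bounds N x s 1 (by omega) h0 h1
  obtain ⟨pk, lk, uk⟩ := W_bounds N x s k (by omega) h0 h1
  push_cast at p1 l1 u1
  rw [Finset.prod_mul_distrib]
  unfold wt
  constructor
  · exact mul_le_mul l1 lk pk.le (p1.le.trans l1)
  · calc _ ≤ (2 ^ 1 * ∏ y ∈ Ico (0 + 1 : ℤ) N, bd x s 1 y) *
        (2 ^ k * ∏ y ∈ Ico (0 + k : ℤ) N, bd x s k y) :=
          mul_le_mul u1 uk (pk.le.trans lk) (by positivity)
      _ = _ := by ring

theorem sum_cf (N : ℕ) [NeZero N] (f : (ZMod N → Bool) → ℝ) :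
    ∑ s : ZMod N → Bool, f s = ∑ s ∈ (Ico (0 : ℤ) N).powerset, f (cf N s) := by
  symm
  have hN : (0 : ℤ) < N := by exact_mod_cast Nat.pos_of_ne_zero (NeZero.ne N)
  have hv : ∀ z : ℤ, z ∈ Ico (0 : ℤ) N → (((z : ZMod N)).val : ℤ) = z := by
    intro z hz
    rw [Finset.mem_Ico] at hz
    rw [ZMod.val_intCast]
    exact Int.emod_eq_of_lt hz.1 hz.2
  refine Finset.sum_bij' (fun s _ => cf N s)
    (fun σ _ => (Ico (0 : ℤ) N).filter (fun z => σ (z : ZMod N) = true)) ?_ ?_ ?_ ?_ ?_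
  · intro s _
    exact Finset.mem_univ _
  · intro σ _
    exact Finset.mem_powerset.mpr (Finset.filter_subset _ _)
  · intro s hs
    have hs' := Finset.mem_powerset.mp hs
    ext z
    simp only [Finset.mem_filter, cf, decide_eq_true_eq]
    constructor
    · rintro ⟨hz, h⟩
      rwa [hv z hz] at h
    · intro h
      refine ⟨hs' h, ?_⟩
      rwa [hv z (hs' h)]
  · intro σ _
    funext y
    simp only [cf, Finset.mem_filter, Finset.mem_Ico]
    have hy : (0 : ℤ) ≤ y.val ∧ (y.val : ℤ) < N :=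
      ⟨Int.natCast_nonneg _, by exact_mod_cast ZMod.val_lt y⟩
    have hc : (((y.val : ℤ)) : ZMod N) = y := by
      rw [Int.cast_natCast, ZMod.natCast_zmod_val]
    rw [hc]
    by_cases h : σ y = true
    · rw [h, decide_eq_true_eq]
      exact ⟨hy, rfl⟩
    · rw [Bool.not_eq_true] at h
      rw [h, decide_eq_false_iff_not]
      rintro ⟨_, h'⟩
      exact Bool.false_ne_true h'
  · intro s _
    rfl

/-- [CYC] -/
theorem s_CYC : S_CYC := by
  intro k N _ x hk hkN h0 h1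
  unfold Cy P
  rw [sum_cf, Finset.mul_sum]
  constructor
  · exact Finset.sum_le_sum fun s _ => (wt_bounds k N x s hk hkN h0 h1).1
  · exact Finset.sum_le_sum fun s _ => (wt_bounds k N x s hk hkN h0 h1).2

end Pool.Agent.L7h50.GR
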